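import Pool.Agent.GY.Main

/-!
# Densely locally minimal connected locally compact groups are Lie groups

Full (positive) answer to Q1.  The proof is self-contained over Mathlib: the theorem of Gleason and Yamabe for
connected locally compact groups, the theorem that locally compact groups without small subgroups are real
analytic Lie groups (Hilbert's fifth problem), the theorem of Peter and Weyl, an identity principle for words
in Lie groups, the fact that compact connected nonabelian groups satisfy no law, and a Baire category argument
are all proved in `Pool/Agent/GY`.
-/

open Topology Filter Set
open scoped Manifold ContDiff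

namespace Pool.Agent.Results.MP_d3d362_al.DenselyLocMinLie

/-- The topological group `(H, τ)` is locally minimal: some `τ`-neighbourhood `V` of `1` has the property
that every Hausdorff group topology `σ` on `H`, coarser than `τ` (in Mathlib: `τ ≤ σ`) and such that `V` is a
`σ`-neighbourhood of `1`, is equal to `τ`. -/
def LocallyMinimal (H : Type*) [Group H] (τ : TopologicalSpace H) : Prop :=
  ∃ V : Set H, V ∈ @nhds H τ 1 ∧ ∀ σ : TopologicalSpace H, τ ≤ σ →
    @IsTopologicalGroup H σ _ → @T2Space H σ → V ∈ @nhds H σ 1 → σ = τ

/-- each dense subgroup, with the induced topology, is locally minimal -/
def DenselyLocallyMinimal (G : Type*) [Group G] [TopologicalSpace G] : Prop :=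
  ∀ H : Subgroup G, Dense (H : Set G) → LocallyMinimal H inferInstance

/-- the topological group `G` admits a compatible structure of a finite-dimensional real analytic manifold
with analytic group operations -/
def IsLieGroup (G : Type*) [Group G] [TopologicalSpace G] : Prop :=
  ∃ (n : ℕ) (_ : ChartedSpace (EuclideanSpace ℝ (Fin n)) G), LieGroup (𝓡 n) ω G

/-- A connected locally compact (Hausdorff) group that is densely locally minimal is a Lie group. -/
theorem result (G : Type*) [Group G] [TopologicalSpace G] [IsTopologicalGroup G] [T2Space G]
    [LocallyCompactSpace G] [ConnectedSpace G] (h : DenselyLocallyMinimal G) : IsLieGroup G :=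
  Pool.Agent.GY.main h

end Pool.Agent.Results.MP_d3d362_al.DenselyLocMinLie
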